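import Pool.Agent.H90.STK.Stmts

/-!
# The trivial bound for the directions
-/

set_option autoImplicit false

namespace Pool.STK

open Finset Real MeasureTheory
open Pool.Agent.H49.Ent Pool.Agent.H32.Dense

namespace TRV

lemma Ex_const {Ω : Type} [Fintype Ω] {p : Ω → ℝ} (h1 : ∑ ω, p ω = 1) (c : ℝ) :
    Ex p (fun _ => c) = c := by
  unfold Ex
  rw [← Finset.sum_mul, h1, one_mul]

lemma Fl_bound {Ω : Type} {m : ℕ} (d : Ω → Fin m → ℝ) (hd : ∀ ω i, |d ω i| ≤ 1) (J : ℕ)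
    (ω : Ω) (i : Fin m) : -(2 : ℝ) ^ J ≤ ((Fl d J ω i : ℤ) : ℝ) ∧ ((Fl d J ω i : ℤ) : ℝ) ≤ 2 ^ J := by
  have hp : (0 : ℝ) < 2 ^ J := by positivity
  have hb := abs_le.mp (hd ω i)
  unfold Fl fl rd
  constructor
  · have h : (-(2 : ℤ) ^ J) ≤ ⌊(2 : ℝ) ^ J * d ω i⌋ := by
      apply Int.le_floor.mpr
      push_cast
      nlinarith [hb.1]
    have := (Int.cast_le (R := ℝ)).mpr h
    push_cast at this
    exact this
  · calc ((⌊(2 : ℝ) ^ J * d ω i⌋ : ℤ) : ℝ) ≤ (2 : ℝ) ^ J * d ω i := Int.floor_le _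
      _ ≤ 2 ^ J := by nlinarith [hb.2]

end TRV

theorem trv_thm : TRVStmt := by
  intro m a ha
  refine ⟨1, one_pos, 2, ?_⟩
  intro J hJ Ω ζ _ p u d Z hp hd _
  have hX : 0 ≤ Xav p u d Z J := by
    unfold Xav
    apply intervalIntegral.integral_nonneg (by norm_num)
    intro t _
    exact CH_nonneg hp.nonneg _ _
  have h1 := CH_le_vec hp.nonneg hp.sum_one (Fl d J) Z (fun _ => 2 * (2 : ℝ) ^ J)
    (fun ω ω' _ _ _ i => by
      have h1 := TRV.Fl_bound d hd J ω i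
      have h2 := TRV.Fl_bound d hd J ω' i
      push_cast
      rw [abs_le]
      constructor <;> linarith [h1.1, h1.2, h2.1, h2.2])
  rw [TRV.Ex_const hp.sum_one] at h1
  have h2 : Real.log (2 * (2 * (2 : ℝ) ^ J) + 1) ≤ (Real.log 2 + Real.log 5) * J := by
    have h10 : Real.log 2 + Real.log 5 = Real.log 10 := by
      rw [← Real.log_mul (by norm_num) (by norm_num)]
      norm_num
    rw [h10, mul_comm (Real.log 10), ← Real.log_pow]
    apply Real.log_le_log (by positivity)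
    have h2J : (1 : ℝ) ≤ 2 ^ J := one_le_pow₀ (by norm_num)
    have h5 : (5 : ℝ) ≤ 5 ^ J := by
      calc (5 : ℝ) = 5 ^ 1 := by norm_num
        _ ≤ 5 ^ J := pow_le_pow_right₀ (by norm_num) (by omega)
    have h3 : (10 : ℝ) ^ J = 2 ^ J * 5 ^ J := by
      rw [← mul_pow]
      norm_num
    rw [h3]
    nlinarith
  have h3 : (m : ℝ) * Real.log (2 * (2 * (2 : ℝ) ^ J) + 1) ≤
      m * (Real.log 2 + Real.log 5) * J := by
    rw [mul_assoc]
    exact mul_le_mul_of_nonneg_left h2 (Nat.cast_nonneg m)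
  have h4 : 0 ≤ a * Xav p u d Z J := mul_nonneg ha hX
  linarith

end Pool.STK
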